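import Pool.Agent.Helper3.CL.Defs
import Pool.Agent.Helper3.CB.ValB
import Pool.Agent.Helper17.CB.ValUp
import Pool.Agent.Helper38.CB.SqVal
import Pool.Agent.Helper12.SB.Res

/-!
# Project CL, piece B10: the local condition (tame symbol an `l`-th power) goes up
-/

set_option autoImplicit false

namespace Pool.Agent.Helper17.CL

open NumberField Pool.Agent.Helper16.CB Pool.Agent.Helper3.CL

/-- a prime whose norm is prime to `l` does not contain `l` -/
theorem natCast_notMem {K : Type*} [Field K] [NumberField K] {p : Ideal (𝓞 K)} (hp : p.IsPrime)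
    {l : ℕ} (h : Nat.Coprime (Ideal.absNorm p) l) : (l : 𝓞 K) ∉ p := by
  intro hl
  obtain ⟨u, v, huv⟩ := Nat.isCoprime_iff_coprime.2 h
  apply hp.ne_top
  rw [Ideal.eq_top_iff_one]
  have h1 : ((u * (Ideal.absNorm p : ℤ) + v * (l : ℤ) : ℤ) : 𝓞 K) = 1 := by
    rw [huv, Int.cast_one]
  rw [← h1]
  push_cast
  exact p.add_mem (p.mul_mem_left _ (Ideal.absNorm_mem p)) (p.mul_mem_left _ hl)

/-- differences of powers -/
theorem pow_sub_pow_mem {R : Type*} [CommRing R] {q : Ideal R} {U V : R} {n : ℕ} (hU : U ∈ q ^ n)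
    (h : U - V ∈ q ^ (n + 1)) {e : ℕ} (he : 1 ≤ e) : U ^ e - V ^ e ∈ q ^ (e * n + 1) := by
  have hV : V ∈ q ^ n := by
    have h1 : U - (U - V) ∈ q ^ n :=
      (q ^ n).sub_mem hU (Ideal.pow_le_pow_right (Nat.le_succ n) h)
    rwa [sub_sub_cancel] at h1
  induction e, he using Nat.le_induction with
  | base => simpa using h
  | succ e he ih =>
    have h1 : U ^ (e + 1) - V ^ (e + 1) = U ^ e * (U - V) + V * (U ^ e - V ^ e) := by ring
    rw [h1]
    refine Ideal.add_mem _ ?_ ?_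
    · have h2 := Ideal.mul_mem_mul (Ideal.pow_mem_pow hU e) h
      rw [← pow_mul, ← pow_add] at h2
      refine Ideal.pow_le_pow_right (le_of_eq ?_) h2
      ring
    · have h2 := Ideal.mul_mem_mul hV ih
      rw [← pow_add] at h2
      refine Ideal.pow_le_pow_right (le_of_eq ?_) h2
      ring

/-- the local condition from the upper one for the symbol of the lower elements -/
theorem lc_of_up {R S : Type*} [CommRing R] [CommRing S] {f : R →+* S} {p : Ideal R} {q : Ideal S}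
    {l e α β : ℕ} (he1 : 1 ≤ e)
    (hmem : ∀ (x : R) (m : ℕ), x ∈ p ^ m → f x ∈ q ^ (e * m))
    (hval : ∀ (x : R) (m : ℕ), Val p x m → Val q (f x) (e * m))
    {a b : R} (hl : 1 ≤ l) (hα : Val p a α) (hβ : Val p b β) {h : S}
    (hh : f ((-1) ^ (α * β) * a ^ β * b ^ ((l - 1) * α)) - h ^ l ∈ q ^ (e * (l * (α * β)) + 1)) :
    LC l q (f a) (f b) := by
  set U : R := (-1) ^ (α * β) * a ^ β * b ^ ((l - 1) * α) with hU
  have hUp : U ∈ p ^ (l * (α * β)) := by
    have h1 := Ideal.mul_mem_mul (Ideal.pow_mem_pow hα.1 β) (Ideal.pow_mem_pow hβ.1 ((l - 1) * α))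
    rw [← pow_mul, ← pow_mul, ← pow_add] at h1
    have h2 : α * β + β * ((l - 1) * α) = l * (α * β) := by
      obtain ⟨k, rfl⟩ : ∃ k, l = k + 1 := ⟨l - 1, by omega⟩
      rw [Nat.add_sub_cancel]
      ring
    rw [h2] at h1
    rw [hU, mul_assoc]
    exact Ideal.mul_mem_left _ _ h1
  have h3 := pow_sub_pow_mem (hmem U _ hUp) hh he1
  refine ⟨e * α, e * β, h ^ e, hval a α hα, hval b β hβ, ?_⟩
  have h4 : (-1) ^ (e * α * (e * β)) * f a ^ (e * β) * f b ^ ((l - 1) * (e * α)) = f U ^ e := by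
    have h5 : ((-1 : S)) ^ (e * α * (e * β)) = ((-1) ^ (α * β)) ^ e := by
      rw [← pow_mul]
      rcases Nat.even_or_odd e with he | he
      · rw [(he.mul_left (α * β)).neg_one_pow, Even.neg_one_pow ((he.mul_right α).mul_right (e * β))]
      · rcases Nat.even_or_odd (α * β) with hab | hab
        · have h6 : e * α * (e * β) = e * e * (α * β) := by ring
          rw [h6, (hab.mul_left (e * e)).neg_one_pow, (hab.mul_right e).neg_one_pow]
        · have h6 : e * α * (e * β) = e * e * (α * β) := by ring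
          rw [h6, ((he.mul he).mul hab).neg_one_pow, (hab.mul he).neg_one_pow]
    rw [h5, hU, map_mul, map_mul, map_pow, map_pow, map_pow, map_neg, map_one, mul_pow, mul_pow,
      ← pow_mul (f a), ← pow_mul (f b)]
    congr 2
    · congr 1
      ring
    · ring
  have h7 : l * (e * α * (e * β)) + 1 = e * (e * (l * (α * β))) + 1 := by ring
  rw [h4, ← pow_mul h e l, mul_comm e l, pow_mul h l e, h7]
  exact h3

/-- `l`-th powers modulo powers of a prime from `l`-th powers modulo the prime -/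
theorem pow_val_of {K L : Type*} [Field K] [NumberField K] [Field L] [NumberField L] [Algebra K L]
    {q : Ideal (𝓞 L)} (hq : q.IsPrime) {l : ℕ} (hp0 : q.comap (algebraMap (𝓞 K) (𝓞 L)) ≠ ⊥)
    (hsq : ∀ y : 𝓞 K, y ∉ q.comap (algebraMap (𝓞 K) (𝓞 L)) →
      ∃ γ : 𝓞 L, algebraMap (𝓞 K) (𝓞 L) y - γ ^ l ∈ q)
    {x : 𝓞 K} {m e : ℕ} (hx : Val (q.comap (algebraMap (𝓞 K) (𝓞 L))) x (l * m))
    (he : ∀ (x : 𝓞 K) (m : ℕ), x ∈ (q.comap (algebraMap (𝓞 K) (𝓞 L))) ^ m →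
        algebraMap (𝓞 K) (𝓞 L) x ∈ q ^ (e * m)) :
    ∃ h : 𝓞 L, algebraMap (𝓞 K) (𝓞 L) x - h ^ l ∈ q ^ (e * (l * m) + 1) := by
  set p := q.comap (algebraMap (𝓞 K) (𝓞 L)) with hpdef
  have hp : p.IsPrime := Ideal.IsPrime.comap _
  have hlt : ¬ p ≤ p ^ 2 := by
    intro h
    have h1 : p ^ 2 < p ^ 1 := Ideal.pow_right_strictAnti p hp0 hp.ne_top (by norm_num)
    rw [pow_one] at h1
    exact absurd h (not_le_of_gt h1)
  obtain ⟨π, hπ, hπ2⟩ := SetLike.not_le_iff_exists.1 hlt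
  obtain ⟨s, t, hs, ht, hst⟩ := Pool.Agent.Helper38.CB.exists_quot hp hp0 hπ hπ2 hx
  have hmax : p.IsMaximal := hp.isMaximal hp0
  obtain ⟨s', hs'⟩ : ∃ s' : 𝓞 K, 1 - s * s' ∈ p := by
    obtain ⟨y, z, hz, hyz⟩ := hmax.exists_inv hs
    refine ⟨y, ?_⟩
    have : 1 - s * y = z := by
      rw [← hyz]
      ring
    rw [this]
    exact hz
  have hs'p : s' ∉ p := by
    intro h
    apply hp.ne_top
    rw [Ideal.eq_top_iff_one]
    have h1 : 1 - s * s' + s * s' ∈ p := p.add_mem hs' (p.mul_mem_left s h)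
    simpa using h1
  have hts : t * s' ∉ p := fun h => (hp.mem_or_mem h).elim ht hs'p
  obtain ⟨γ, hγ⟩ := hsq _ hts
  refine ⟨algebraMap (𝓞 K) (𝓞 L) π ^ m * γ, ?_⟩
  have hid : algebraMap (𝓞 K) (𝓞 L) x - (algebraMap (𝓞 K) (𝓞 L) π ^ m * γ) ^ l =
      algebraMap (𝓞 K) (𝓞 L) x * algebraMap (𝓞 K) (𝓞 L) (1 - s * s') +
        algebraMap (𝓞 K) (𝓞 L) (π ^ (l * m)) * (algebraMap (𝓞 K) (𝓞 L) (t * s') - γ ^ l) := by
    have h1 := congrArg (algebraMap (𝓞 K) (𝓞 L)) hst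
    simp only [map_mul, map_pow, map_sub, map_one] at h1 ⊢
    rw [mul_pow, ← pow_mul, mul_comm m l]
    linear_combination algebraMap (𝓞 K) (𝓞 L) s' * h1
  rw [hid, pow_succ]
  refine Ideal.add_mem _ (Ideal.mul_mem_mul (he x _ hx.1) ?_) (Ideal.mul_mem_mul ?_ hγ)
  · exact Ideal.mem_comap.1 hs'
  · exact he _ _ (Ideal.pow_mem_pow hπ _)

/-- B10 -/
theorem lc_of_harm {K L : Type*} [Field K] [NumberField K] [Field L] [NumberField L] [Algebra K L]
    {l J : ℕ} (hl : l.Prime) (hJ : 1 ≤ J) {ζ : L} (hζ : IsPrimitiveRoot ζ (l ^ J)) {a b : 𝓞 K}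
    (ha : a ≠ 0) (hb : b ≠ 0) {q : Ideal (𝓞 L)} (hq : q.IsPrime) (hq0 : q ≠ ⊥)
    (h : Harm l J a b (q.comap (algebraMap (𝓞 K) (𝓞 L)))) :
    LC l q (algebraMap (𝓞 K) (𝓞 L) a) (algebraMap (𝓞 K) (𝓞 L) b) := by
  obtain ⟨e, he1, hmem, hval⟩ := Helper17.CB.val_up (K := K) hq hq0
  have hp : (q.comap (algebraMap (𝓞 K) (𝓞 L))).IsPrime := Ideal.comap_isPrime _ _
  have hp0 : q.comap (algebraMap (𝓞 K) (𝓞 L)) ≠ ⊥ := Helper3.CB.comap_ne_bot hq0
  rcases h with ⟨h1, h2⟩ | ⟨α, β, h, hα, hβ, hh⟩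
  · obtain ⟨α, hα⟩ := exists_val hp ha
    obtain ⟨β, hβ⟩ := exists_val hp hb
    have hlp := natCast_notMem hp h1
    have hU : Val (q.comap (algebraMap (𝓞 K) (𝓞 L)))
        ((-1) ^ (α * β) * a ^ β * b ^ ((l - 1) * α)) (l * (α * β)) := by
      have h3 := (hα.pow hp hp0 β).mul hp hp0 (hβ.pow hp hp0 ((l - 1) * α))
      have h4 : β * α + (l - 1) * α * β = l * (α * β) := by
        obtain ⟨k, rfl⟩ : ∃ k, l = k + 1 := ⟨l - 1, by have := hl.pos; omega⟩
        rw [Nat.add_sub_cancel]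
        ring
      rw [h4] at h3
      rcases neg_one_pow_eq_or (𝓞 K) (α * β) with h5 | h5
      · rw [h5, one_mul]
        exact h3
      · rw [h5, neg_one_mul, neg_mul]
        exact h3.neg
    obtain ⟨h, hh⟩ := pow_val_of hq hp0 (fun y hy =>
      Helper12.SB.pow_res hl hζ hp hp0 hlp h2 hq rfl hy) hU hmem
    exact lc_of_up he1 hmem hval hl.one_le hα hβ hh
  · refine lc_of_up he1 hmem hval hl.one_le hα hβ (h := algebraMap (𝓞 K) (𝓞 L) h) ?_
    have h3 := hmem _ _ hh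
    rw [map_sub, map_pow _ h] at h3
    refine Ideal.pow_le_pow_right ?_ h3
    rw [mul_add, mul_one]
    omega

end Pool.Agent.Helper17.CL
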