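import Pool.Agent.Helper17.CL.ToU
import Pool.Agent.Helper3.CL.AlgLC

/-!
# ALG with tame symbols for all prime degrees
-/

set_option autoImplicit false

namespace Pool.Agent.Helper17.CL

open Pool.Agent.Helper65.CL (AlgStmtU)

/-- **ALG with tame symbols** -/
theorem algU (K : Type) [Field K] [NumberField K] (l J : ℕ) (hl : l.Prime) (hJ : 1 ≤ J) :
    AlgStmtU K l J :=
  algU_of K l J hl (Pool.Agent.Helper3.CL.algLC K l J hl hJ)

end Pool.Agent.Helper17.CL
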