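import Pool.Agent.Helper18.CL.Defs

/-!
# CB for a prime `l`: the explicit form of the norm
-/

set_option autoImplicit false

namespace Pool.Agent.Helper17.CL

open Polynomial Pool.Agent.Helper18.CL

/-- the basis of powers of the root -/
theorem exists_basis {F : Type*} [Field F] {l : ℕ} (hl : l ≠ 0) (a : F) :
    ∃ bs : Module.Basis (Fin l) F (AdjoinRoot (X ^ l - C a : F[X])),
      ∀ i : Fin l, bs i = AdjoinRoot.root (X ^ l - C a : F[X]) ^ (i : ℕ) := by
  have hm : (X ^ l - C a : F[X]).Monic := monic_X_pow_sub_C a hl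
  have hd : (AdjoinRoot.powerBasis' hm).dim = l := by
    rw [AdjoinRoot.powerBasis'_dim]
    exact natDegree_X_pow_sub_C
  refine ⟨(AdjoinRoot.powerBasis' hm).basis.reindex (finCongr hd), fun i => ?_⟩
  rw [Module.Basis.reindex_apply, PowerBasis.basis_eq_pow, AdjoinRoot.powerBasis'_gen]
  rfl

theorem root_pow_add {F : Type*} [Field F] {l : ℕ} [NeZero l] (a : F) (i p : Fin l) :
    AdjoinRoot.root (X ^ l - C a : F[X]) ^ ((i : ℕ) + (p : ℕ)) =
      (if p ≤ i + p then (1 : F) else a) • AdjoinRoot.root (X ^ l - C a : F[X]) ^ ((i + p : Fin l) : ℕ) := by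
  have h1 : AdjoinRoot.root (X ^ l - C a : F[X]) ^ l =
      algebraMap F (AdjoinRoot (X ^ l - C a : F[X])) a := by
    have h2 := AdjoinRoot.eval₂_root (X ^ l - C a : F[X])
    rw [eval₂_sub, eval₂_pow, eval₂_X, eval₂_C, sub_eq_zero] at h2
    exact h2
  by_cases h : (i : ℕ) + (p : ℕ) < l
  · have h3 : ((i + p : Fin l) : ℕ) = (i : ℕ) + (p : ℕ) := by
      rw [Fin.val_add, Nat.mod_eq_of_lt h]
    rw [if_pos (by rw [Fin.le_def, h3]; omega), h3, one_smul]
  · have h4 : (i : ℕ) + (p : ℕ) - l < l := by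
      have := i.2
      have := p.2
      omega
    have h3 : ((i + p : Fin l) : ℕ) = (i : ℕ) + (p : ℕ) - l := by
      rw [Fin.val_add, Nat.mod_eq_sub_mod (by omega), Nat.mod_eq_of_lt h4]
    rw [if_neg (by rw [Fin.le_def, h3]; have := i.2; omega), h3, Algebra.smul_def, ← h1, ← pow_add]
    congr 1
    omega

theorem norm_eq_nf {F : Type*} [Field F] {l : ℕ} [NeZero l] (a : F)
    (bs : Module.Basis (Fin l) F (AdjoinRoot (X ^ l - C a : F[X])))
    (hbs : ∀ i : Fin l, bs i = AdjoinRoot.root (X ^ l - C a : F[X]) ^ (i : ℕ)) (x : Fin l → F) :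
    Algebra.norm F (∑ i, x i • bs i) = nf a x := by
  rw [Algebra.norm_eq_matrix_det bs, ← Matrix.det_transpose]
  unfold nf
  congr 1
  ext p q
  rw [Matrix.transpose_apply, Algebra.leftMulMatrix_eq_repr_mul, Matrix.of_apply]
  have h1 : (∑ i, x i • bs i) * bs p =
      ∑ q, ((if p ≤ q then (1 : F) else a) * x (q - p)) • bs q := by
    rw [Finset.sum_mul, ← Equiv.sum_comp (Equiv.addRight p) (fun q => _ • bs q)]
    refine Finset.sum_congr rfl fun i _ => ?_
    rw [Equiv.coe_addRight, add_sub_cancel_right, smul_mul_assoc, hbs, hbs, hbs, ← pow_add,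
      root_pow_add, smul_smul, mul_comm]
  rw [h1, map_sum, Finsupp.coe_finsetSum, Finset.sum_apply, Finset.sum_eq_single q]
  · rw [map_smul, Finsupp.smul_apply, Module.Basis.repr_self, Finsupp.single_eq_same, smul_eq_mul,
      mul_one]
  · intro k _ hk
    rw [map_smul, Finsupp.smul_apply, Module.Basis.repr_self, Finsupp.single_apply, if_neg hk,
      smul_zero]
  · intro h
    exact absurd (Finset.mem_univ _) h

/-- explicit form -/
theorem isNm_iff {F : Type} [Field F] {l : ℕ} [NeZero l] (a b : F) :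
    IsNm l a b ↔ ∃ x : Fin l → F, nf a x = b := by
  obtain ⟨bs, hbs⟩ := exists_basis (F := F) (NeZero.ne l) a
  constructor
  · rintro ⟨e, rfl⟩
    refine ⟨fun i => bs.repr e i, ?_⟩
    rw [← norm_eq_nf a bs hbs, bs.sum_repr]
  · rintro ⟨x, rfl⟩
    exact ⟨∑ i, x i • bs i, norm_eq_nf a bs hbs x⟩

end Pool.Agent.Helper17.CL
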