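import Mathlib

/-!
# CB for a prime `l`: a semilinear map whose `l`-th power is the scalar `a` makes a power of `a` a norm
-/

set_option autoImplicit false

namespace Pool.Agent.Helper17.CL

open Finset

/-- twisted powers of a square matrix -/
def tw {E : Type*} [CommRing E] {r : ℕ} (σ : E →+* E) (C : Matrix (Fin r) (Fin r) E) :
    ℕ → Matrix (Fin r) (Fin r) E
  | 0 => 1
  | m + 1 => C * (tw σ C m).map σ

theorem det_tw {E : Type*} [CommRing E] {r : ℕ} (σ : E →+* E) (C : Matrix (Fin r) (Fin r) E) (m : ℕ) :
    (tw σ C m).det = ∏ i ∈ range m, σ^[i] C.det := by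
  induction m with
  | zero => simp [tw]
  | succ m ih =>
    rw [tw, Matrix.det_mul, ← RingHom.mapMatrix_apply, ← RingHom.map_det, ih, map_prod, prod_range_succ', mul_comm]
    simp [Function.iterate_succ_apply']

/-- **A semilinear map with `Φ ^ l = a` on a space of dimension `r`: `a ^ r` is a product of
conjugates.** -/
theorem semilin_norm {E V : Type*} [Field E] [AddCommGroup V] [Module E V] {r : ℕ}
    (bs : Module.Basis (Fin r) E V) (σ : E →+* E) (Φ : V →+ V)
    (hΦ : ∀ (e : E) (v : V), Φ (e • v) = σ e • Φ v) (l : ℕ) (a : E)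
    (hl : ∀ v, Φ^[l] v = a • v) : ∃ c : E, ∏ i ∈ range l, σ^[i] c = a ^ r := by
  classical
  set C : Matrix (Fin r) (Fin r) E := Matrix.of fun i j => bs.repr (Φ (bs j)) i with hC
  have h1 : ∀ j, Φ (bs j) = ∑ i, C i j • bs i := by
    intro j
    rw [← bs.sum_repr (Φ (bs j))]
    simp [hC]
  have h2 : ∀ m j, Φ^[m] (bs j) = ∑ i, tw σ C m i j • bs i := by
    intro m
    induction m with
    | zero =>
      intro j
      simp [tw, Matrix.one_apply]
    | succ m ih =>
      intro j
      rw [Function.iterate_succ_apply', ih, map_sum]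
      simp_rw [hΦ, h1, smul_sum]
      rw [sum_comm]
      refine sum_congr rfl fun k _ => ?_
      rw [tw, Matrix.mul_apply, sum_smul]
      refine sum_congr rfl fun i _ => ?_
      rw [smul_smul, Matrix.map_apply, mul_comm]
  have h3 : tw σ C l = a • (1 : Matrix (Fin r) (Fin r) E) := by
    ext i j
    have h4 := h2 l j
    rw [hl] at h4
    have h5 := congrArg (fun v => bs.repr v i) h4
    simp only [map_smul, map_sum, Finsupp.smul_apply, Module.Basis.repr_self, Finsupp.coe_finsetSum,
      Finset.sum_apply, smul_eq_mul] at h5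
    rw [Matrix.smul_apply, Matrix.one_apply, smul_eq_mul]
    rw [sum_eq_single i] at h5
    · rw [Finsupp.single_eq_same, mul_one] at h5
      rw [← h5]
      congr 1
      rw [Finsupp.single_apply]
      simp only [eq_comm]
    · intro k _ hk
      rw [Finsupp.single_eq_of_ne (by simpa using hk.symm), mul_zero]
    · intro h
      exact absurd (mem_univ _) h
  refine ⟨C.det, ?_⟩
  rw [← det_tw, h3, Matrix.det_smul, Matrix.det_one, mul_one, Fintype.card_fin]

end Pool.Agent.Helper17.CL
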