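import Pool.Agent.Helper3.CL.Defs
import Pool.Agent.Helper65.CL.AlgU
import Pool.Agent.Helper56.CB.LcLoc
import Pool.Agent.Helper17.CL.LcHarm
import Pool.Agent.Helper98.SB.Main

/-!
# CB for symbols of prime degrees: from the LC form of ALG to tame symbols at the bad places
-/

set_option autoImplicit false

namespace Pool.Agent.Helper17.CL

open NumberField IsDedekindDomain Pool.Agent.Helper16.CB Pool.Agent.Helper4.CB WithZero
open Pool.Agent.Helper3.CL (LC Harm)
open Pool.Agent.Helper56.CB (val_exp exists_Val lt_exp_succ)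
open Pool.Agent.Helper65.CL (LocU AlgStmtU)
open Pool.Agent.Helper18.CL (IsNm BadL)
open Pool.Agent.Helper69.CB (vl)

/-- the symbol element has valuation `l * (α * β)` -/
theorem val_sym {R : Type*} [CommRing R] [IsDedekindDomain R] {p : Ideal R} (hp : p.IsPrime)
    (hp0 : p ≠ ⊥) {l α β : ℕ} (hl : 1 ≤ l) {a b : R} (hα : Val p a α) (hβ : Val p b β) :
    Val p ((-1) ^ (α * β) * a ^ β * b ^ ((l - 1) * α)) (l * (α * β)) := by
  have h3 := (hα.pow hp hp0 β).mul hp hp0 (hβ.pow hp hp0 ((l - 1) * α))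
  have h4 : β * α + (l - 1) * α * β = l * (α * β) := by
    obtain ⟨k, rfl⟩ : ∃ k, l = k + 1 := ⟨l - 1, by omega⟩
    rw [Nat.add_sub_cancel]
    ring
  rw [h4] at h3
  rcases neg_one_pow_eq_or R (α * β) with h5 | h5
  · rw [h5, one_mul]
    exact h3
  · rw [h5, neg_one_mul, neg_mul]
    exact h3.neg

/-- `l`-th roots modulo a prime lift to elements whose valuation is a multiple of `l` -/
theorem exists_pow_of_val {R : Type*} [CommRing R] [IsDedekindDomain R] {p : Ideal R}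
    (hp : p.IsPrime) (hp0 : p ≠ ⊥) {l : ℕ} (hpow : ∀ y : R, ∃ γ : R, y - γ ^ l ∈ p) {x : R} {m : ℕ}
    (hx : Val p x (l * m)) : ∃ h : R, x - h ^ l ∈ p ^ (l * m + 1) := by
  have hlt : ¬ p ≤ p ^ 2 := by
    intro h
    have h1 : p ^ 2 < p ^ 1 := Ideal.pow_right_strictAnti p hp0 hp.ne_top (by norm_num)
    rw [pow_one] at h1
    exact absurd h (not_le_of_gt h1)
  obtain ⟨π, hπ, hπ2⟩ := SetLike.not_le_iff_exists.1 hlt
  obtain ⟨s, t, hs, ht, hst⟩ := Pool.Agent.Helper38.CB.exists_quot hp hp0 hπ hπ2 hx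
  have hmax : p.IsMaximal := hp.isMaximal hp0
  obtain ⟨s', hs'⟩ : ∃ s' : R, 1 - s * s' ∈ p := by
    obtain ⟨y, z, hz, hyz⟩ := hmax.exists_inv hs
    refine ⟨y, ?_⟩
    have : 1 - s * y = z := by
      rw [← hyz]
      ring
    rw [this]
    exact hz
  obtain ⟨γ, hγ⟩ := hpow (t * s')
  refine ⟨π ^ m * γ, ?_⟩
  have hid : x - (π ^ m * γ) ^ l = x * (1 - s * s') + π ^ (l * m) * (t * s' - γ ^ l) := by
    rw [mul_pow, ← pow_mul, mul_comm m l]
    linear_combination s' * hst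
  rw [hid, pow_succ]
  exact Ideal.add_mem _ (Ideal.mul_mem_mul hx.1 hs')
    (Ideal.mul_mem_mul (Ideal.pow_mem_pow hπ _) hγ)

/-- at the primes above `l` the local condition always holds -/
theorem lc_above {K : Type} [Field K] [NumberField K] {p : Ideal (𝓞 K)} (hp : p.IsPrime)
    (hp0 : p ≠ ⊥) {l : ℕ} (hl : l.Prime) (hlp : (l : 𝓞 K) ∈ p) {a b : 𝓞 K} (ha : a ≠ 0)
    (hb : b ≠ 0) : LC l p a b := by
  have hmax : p.IsMaximal := hp.isMaximal hp0
  have hpow : ∀ y : 𝓞 K, ∃ γ : 𝓞 K, y - γ ^ l ∈ p := by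
    intro y
    let _ : Field (𝓞 K ⧸ p) := Ideal.Quotient.field p
    have : Finite (𝓞 K ⧸ p) := Ideal.finiteQuotientOfFreeOfNeBot p hp0
    let _ : Fintype (𝓞 K ⧸ p) := Fintype.ofFinite _
    have h3 : ((l : ℕ) : 𝓞 K ⧸ p) = 0 := by
      have h4 : (Ideal.Quotient.mk p) (l : 𝓞 K) = 0 := Ideal.Quotient.eq_zero_iff_mem.2 hlp
      rw [← map_natCast (Ideal.Quotient.mk p) l]
      exact h4
    have hch : CharP (𝓞 K ⧸ p) l := by
      have h5 : ringChar (𝓞 K ⧸ p) ∣ l := (ringChar.spec (𝓞 K ⧸ p) l).1 h3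
      rcases (Nat.dvd_prime hl).1 h5 with h6 | h6
      · exfalso
        have h7 : ((1 : ℕ) : 𝓞 K ⧸ p) = 0 := by
          rw [← h6]
          exact ringChar.Nat.cast_ringChar
        simp at h7
      · rw [← h6]
        exact ringChar.charP _
    obtain ⟨n, -, hn⟩ := FiniteField.card (𝓞 K ⧸ p) l
    obtain ⟨γ, hγ⟩ := Ideal.Quotient.mk_surjective
      ((Ideal.Quotient.mk p y) ^ (l ^ ((n : ℕ) - 1)))
    refine ⟨γ, ?_⟩
    rw [← Ideal.Quotient.eq, map_pow, hγ, ← pow_mul, ← pow_succ,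
      Nat.sub_add_cancel (show 1 ≤ (n : ℕ) from n.2), ← hn, FiniteField.pow_card]
  obtain ⟨α, hα⟩ := exists_val hp ha
  obtain ⟨β, hβ⟩ := exists_val hp hb
  obtain ⟨h, hh⟩ := exists_pow_of_val hp hp0 hpow (val_sym hp hp0 hl.one_le hα hβ)
  exact ⟨α, β, h, hα, hβ, hh⟩

section Loc

variable {K : Type} [Field K] [NumberField K]

theorem val_eq_exp_of_pow {x : ℤᵐ⁰} {l m : ℕ} (hl : l ≠ 0) (h : x ^ l = exp (-((l * m : ℕ) : ℤ))) :
    x = exp (-(m : ℤ)) := by
  have h0 : x ≠ 0 := by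
    rintro rfl
    rw [zero_pow hl] at h
    exact exp_ne_zero h.symm
  rw [← exp_log h0] at h ⊢
  rw [← exp_nsmul, exp_inj] at h
  rw [exp_inj]
  have hl' : (l : ℤ) ≠ 0 := by exact_mod_cast hl
  apply mul_left_cancel₀ hl'
  simp only [nsmul_eq_mul] at h
  rw [h]
  push_cast
  ring

/-- powers of close elements are close -/
theorem val_pow_sub {p : Pl K} {x y : K} {l m : ℕ} (hl : l ≠ 0)
    (hx : p.valuation K x ≤ exp (-(m : ℤ))) (hy : p.valuation K y ≤ exp (-(m : ℤ)))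
    (h : p.valuation K (x - y) < exp (-(m : ℤ))) :
    p.valuation K (x ^ l - y ^ l) < exp (-((l * m : ℕ) : ℤ)) := by
  induction l with
  | zero => exact absurd rfl hl
  | succ l ih =>
    rcases Nat.eq_zero_or_pos l with rfl | hl0
    · simpa using h
    have h1 : x ^ (l + 1) - y ^ (l + 1) = x ^ l * (x - y) + y * (x ^ l - y ^ l) := by ring
    have h2 : exp (-(((l + 1) * m : ℕ) : ℤ)) = exp (-((l * m : ℕ) : ℤ)) * exp (-(m : ℤ)) := by
      rw [← exp_add]
      congr 1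
      push_cast
      ring
    rw [h1, h2]
    refine Valuation.map_add_lt _ ?_ ?_
    · rw [map_mul, map_pow]
      have h3 : p.valuation K x ^ l ≤ exp (-((l * m : ℕ) : ℤ)) := by
        have h4 := pow_le_pow_left₀ zero_le hx l
        rw [← exp_nsmul] at h4
        refine h4.trans (le_of_eq ?_)
        congr 1
        simp
      exact (mul_le_mul_of_nonneg_right h3 zero_le).trans_lt (mul_lt_mul_of_pos_left h exp_pos)
    · rw [map_mul, mul_comm (exp _)]
      exact (mul_le_mul_of_nonneg_right hy zero_le).trans_lt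
        (mul_lt_mul_of_pos_left (ih hl0.ne') exp_pos)

/-- the `l`-th power part at one place -/
theorem pow_loc (p : Pl K) {l m : ℕ} (hl : l ≠ 0) {U : 𝓞 K} {τ T σ : K}
    (hU : Val p.asIdeal U (l * m)) (hB : (U : K) = τ ^ l * T) (hT : p.valuation K T = 1)
    (hσ : p.valuation K (T - σ ^ l) < 1) : ∃ h : 𝓞 K, U - h ^ l ∈ p.asIdeal ^ (l * m + 1) := by
  have hvU := val_exp p hU
  have hσ1 : p.valuation K σ = 1 := by
    have h1 : p.valuation K (σ ^ l) = 1 := by
      have h2 : σ ^ l = T - (T - σ ^ l) := by ring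
      rw [h2, Valuation.map_sub_eq_of_lt_left _ (by rw [hT]; exact hσ), hT]
    rw [map_pow] at h1
    exact (pow_eq_one_iff.1 h1).resolve_right hl
  have hτ : p.valuation K τ = exp (-(m : ℤ)) := by
    apply val_eq_exp_of_pow hl
    rw [← hvU, hB, map_mul, map_pow, hT, mul_one]
  have hτσ : p.valuation K (τ * σ) = exp (-(m : ℤ)) := by
    rw [map_mul, hσ1, mul_one, hτ]
  have hτσ1 : p.valuation K (τ * σ) ≤ 1 := by
    rw [hτσ, ← exp_zero, exp_le_exp]
    omega
  obtain ⟨h, hh⟩ := p.exists_valuation_sub_lt_of_integer (K := K) hτσ1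
    (Units.mk0 (exp (-(m : ℤ))) (exp_ne_zero))
  refine ⟨h, ?_⟩
  rw [← p.intValuation_le_pow_iff_mem, ← HeightOneSpectrum.valuation_of_algebraMap (K := K) p]
  refine lt_exp_succ (l * m) ?_
  have e : algebraMap (𝓞 K) K (U - h ^ l) = τ ^ l * (T - σ ^ l) -
      ((algebraMap (𝓞 K) K h) ^ l - (τ * σ) ^ l) := by
    rw [map_sub, map_pow]
    have : algebraMap (𝓞 K) K U = τ ^ l * T := hB
    rw [this]
    ring
  show p.valuation K (algebraMap (𝓞 K) K (U - h ^ l)) < _
  rw [e]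
  refine Valuation.map_sub_lt _ ?_ ?_
  · rw [map_mul, map_pow, hτ, ← exp_nsmul]
    have h1 : exp (l • -(m : ℤ)) = exp (-((l * m : ℕ) : ℤ)) := by
      congr 1
      simp
    rw [h1]
    exact mul_lt_of_lt_one_right exp_pos hσ
  · refine val_pow_sub hl ?_ hτσ.le hh
    have h1 : algebraMap (𝓞 K) K h = (algebraMap (𝓞 K) K h - τ * σ) + τ * σ := by ring
    rw [h1]
    exact (Valuation.map_add _ _ _).trans (max_le hh.le hτσ.le)

theorem sign_ok {F : Type*} [Field F] {l : ℕ} (hl : l.Prime) {α β e f k : ℕ} {x y : ℤ}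
    (hα : (α : ℤ) = e * k + l * y) (hβ : (β : ℤ) = f * k + l * x) :
    ∃ ε : F, ε ^ l * ((-1) ^ (e * f)) ^ k = (-1) ^ (α * β) ∧ (ε = 1 ∨ ε = -1) := by
  rcases hl.eq_two_or_odd' with rfl | hodd
  · refine ⟨1, ?_, Or.inl rfl⟩
    rw [one_pow, one_mul, ← pow_mul]
    have h1 : Even α ↔ Even e ∨ Even k := by
      rw [← Int.even_coe_nat α, hα, Int.even_add, Int.even_mul]
      simp
    have h2 : Even β ↔ Even f ∨ Even k := by
      rw [← Int.even_coe_nat β, hβ, Int.even_add, Int.even_mul]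
      simp
    have h3 : Even (e * f * k) ↔ Even (α * β) := by
      rw [Nat.even_mul, Nat.even_mul, Nat.even_mul, h1, h2]
      tauto
    rcases Nat.even_or_odd (α * β) with h4 | h4
    · rw [h4.neg_one_pow, (h3.2 h4).neg_one_pow]
    · have h5 : Odd (e * f * k) := by
        rw [← Nat.not_even_iff_odd] at h4 ⊢
        exact fun h6 => h4 (h3.1 h6)
      rw [h4.neg_one_pow, h5.neg_one_pow]
  · refine ⟨(-1) ^ (α * β + e * f * k), ?_, neg_one_pow_eq_or F _⟩
    have h1 : ((-1 : F) ^ (α * β + e * f * k)) ^ l = (-1) ^ (α * β + e * f * k) := by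
      rcases neg_one_pow_eq_or F (α * β + e * f * k) with h2 | h2
      · rw [h2, one_pow]
      · rw [h2, hodd.neg_one_pow]
    rw [h1, ← pow_mul, ← pow_add, add_assoc, pow_add, ← two_mul, pow_mul (-1 : F) 2, neg_one_sq,
      one_pow, mul_one]

theorem key_eq {F : Type*} [Field F] {l : ℕ} {a1 b1 ε : F} (ha1 : a1 ≠ 0) (hb1 : b1 ≠ 0)
    {α β e f k : ℕ} {x y : ℤ} (hα : (α : ℤ) = e * k + l * y) (hβ : (β : ℤ) = f * k + l * x)
    (hε : ε ^ l * ((-1) ^ (e * f)) ^ k = (-1) ^ (α * β)) :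
    (-1) ^ (α * β) * (a1 ^ β * b1 ^ ((l - 1) * α)) =
      (ε * (a1 ^ x * b1 ^ (((l - 1 : ℕ) : ℤ) * y))) ^ l *
        ((-1) ^ (e * f) * (a1 ^ f * b1 ^ ((l - 1) * e))) ^ k := by
  have hA : a1 ^ β = (a1 ^ f) ^ k * (a1 ^ x) ^ l := by
    rw [← zpow_natCast a1 β, hβ, zpow_add₀ ha1]
    congr 1
    · rw [← pow_mul, ← zpow_natCast]
      push_cast
      rfl
    · rw [mul_comm, zpow_mul, zpow_natCast]
  have hB : b1 ^ ((l - 1) * α) = (b1 ^ ((l - 1) * e)) ^ k *
      (b1 ^ (((l - 1 : ℕ) : ℤ) * y)) ^ l := by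
    have h1 : (((l - 1) * α : ℕ) : ℤ) = (((l - 1) * e * k : ℕ) : ℤ) +
        (((l - 1 : ℕ) : ℤ) * y) * l := by
      rw [Nat.cast_mul, hα]
      push_cast
      ring
    rw [← zpow_natCast b1 ((l - 1) * α), h1, zpow_add₀ hb1, zpow_natCast, pow_mul b1 _ k,
      zpow_mul b1 _ (l : ℤ), zpow_natCast]
  rw [← hε, hA, hB]
  ring

/-- the local condition at one place from the tame symbol -/
theorem lc_loc (p : Pl K) {l : ℕ} (hl : l.Prime) {A B : 𝓞 K} (hA : A ≠ 0) (hB : B ≠ 0)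
    {s t z a1 b1 g h : K} {e f : ℕ}
    (hAe : (A : K) = s ^ l * (z ^ e * a1)) (hBe : (B : K) = t ^ l * (z ^ f * b1))
    (ha1 : p.valuation K a1 = 1) (hb1 : p.valuation K b1 = 1) (hg : p.valuation K g = 1)
    (hh : p.valuation K (g ^ l * ((-1) ^ (e * f) * (a1 ^ f * b1 ^ ((l - 1) * e))) - h ^ l) < 1) :
    LC l p.asIdeal A B := by
  obtain ⟨α, hα⟩ := exists_Val p hA
  obtain ⟨β, hβ⟩ := exists_Val p hB
  have hl0 : l ≠ 0 := hl.ne_zero
  have hAK : (A : K) ≠ 0 := by simpa using hA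
  have hBK : (B : K) ≠ 0 := by simpa using hB
  have hs : s ≠ 0 := by
    rintro rfl
    exact hAK (by rw [hAe, zero_pow hl0, zero_mul])
  have ht : t ≠ 0 := by
    rintro rfl
    exact hBK (by rw [hBe, zero_pow hl0, zero_mul])
  have hu0 : ∀ x : K, p.valuation K x = 1 → x ≠ 0 := by
    rintro x hx rfl
    rw [map_zero] at hx
    exact zero_ne_one hx
  set ls : ℤ := log (p.valuation K s) with hls
  set lt : ℤ := log (p.valuation K t) with hlt
  set lz : ℤ := log (p.valuation K z) with hlz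
  have hvs : p.valuation K s ≠ 0 := (Valuation.ne_zero_iff _).2 hs
  have hvt : p.valuation K t ≠ 0 := (Valuation.ne_zero_iff _).2 ht
  have e1 : -(α : ℤ) = l * ls + e * lz := by
    have h1 := val_exp p hα
    have h2 : p.valuation K z ^ e ≠ 0 := by
      rw [← map_pow]
      refine (Valuation.ne_zero_iff _).2 ?_
      intro h0
      exact hAK (by rw [hAe, h0]; ring)
    rw [hAe, map_mul, map_mul, map_pow, map_pow, ha1, mul_one] at h1
    have h3 := congrArg log h1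
    rw [log_exp, log_mul (pow_ne_zero _ hvs) h2, log_pow, log_pow] at h3
    simp only [nsmul_eq_mul] at h3
    rw [← h3]
  have e2 : -(β : ℤ) = l * lt + f * lz := by
    have h1 := val_exp p hβ
    have h2 : p.valuation K z ^ f ≠ 0 := by
      rw [← map_pow]
      refine (Valuation.ne_zero_iff _).2 ?_
      intro h0
      exact hBK (by rw [hBe, h0]; ring)
    rw [hBe, map_mul, map_mul, map_pow, map_pow, hb1, mul_one] at h1
    have h3 := congrArg log h1
    rw [log_exp, log_mul (pow_ne_zero _ hvt) h2, log_pow, log_pow] at h3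
    simp only [nsmul_eq_mul] at h3
    rw [← h3]
  have hlZ : (l : ℤ) ≠ 0 := by exact_mod_cast hl0
  obtain ⟨k, q, hk⟩ : ∃ (k : ℕ) (q : ℤ), -lz = l * q + k := by
    refine ⟨((-lz) % l).toNat, (-lz) / l, ?_⟩
    rw [Int.toNat_of_nonneg (Int.emod_nonneg _ hlZ)]
    exact (Int.mul_ediv_add_emod _ _).symm
  have hαk : (α : ℤ) = e * k + l * (e * q - ls) := by
    have h1 : lz = -(l * q + k) := by linarith
    rw [h1] at e1
    linarith
  have hβk : (β : ℤ) = f * k + l * (f * q - lt) := by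
    have h1 : lz = -(l * q + k) := by linarith
    rw [h1] at e2
    linarith
  set x : ℤ := f * q - lt with hx
  set y : ℤ := e * q - ls with hy
  obtain ⟨E, hE⟩ : ∃ E : ℕ, e * β + f * ((l - 1) * α) = l * E := by
    have h1 : (l : ℤ) ∣ ((e * β + f * ((l - 1) * α) : ℕ) : ℤ) := by
      refine ⟨e * x - f * y + f * α, ?_⟩
      rw [Nat.cast_add, Nat.cast_mul, Nat.cast_mul, Nat.cast_mul, Nat.cast_sub hl.one_le]
      have h2 : (e : ℤ) * β - f * α = l * (e * x - f * y) := by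
        rw [hαk, hβk]
        ring
      push_cast
      linear_combination h2
    exact Int.natCast_dvd_natCast.1 h1
  obtain ⟨ε, hε, hε1⟩ := sign_ok (F := K) hl hαk hβk
  set X : K := (-1) ^ (e * f) * (a1 ^ f * b1 ^ ((l - 1) * e)) with hX
  have hkey := key_eq (hu0 _ ha1) (hu0 _ hb1) hαk hβk hε
  have hvX : p.valuation K X = 1 := by
    rw [hX, map_mul, map_mul, map_pow, map_pow, map_pow, Valuation.map_neg, map_one, ha1, hb1]
    simp
  have hXh : p.valuation K (X - (h / g) ^ l) < 1 := by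
    have hg0 := hu0 _ hg
    have e3 : X - (h / g) ^ l = (g ^ l * X - h ^ l) * (g⁻¹) ^ l := by
      rw [div_pow, inv_pow]
      field_simp
    rw [e3, map_mul, map_pow, map_inv₀, hg, inv_one, one_pow, mul_one]
    exact hh
  have hvT : p.valuation K (X ^ k) = 1 := by rw [map_pow, hvX, one_pow]
  have hTσ : p.valuation K (X ^ k - ((h / g) ^ k) ^ l) < 1 := by
    rcases Nat.eq_zero_or_pos k with rfl | hk0
    · simp
    · have hle : p.valuation K ((h / g) ^ l) ≤ 1 := by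
        have h1 : (h / g) ^ l = X - (X - (h / g) ^ l) := by ring
        rw [h1]
        exact (Valuation.map_sub _ _ _).trans (max_le hvX.le hXh.le)
      have h1 := val_pow_sub (p := p) (x := X) (y := (h / g) ^ l) (l := k) (m := 0) hk0.ne'
        (by simpa using hvX.le) (by simpa using hle) (by simpa using hXh)
      rw [← pow_mul, mul_comm k l, pow_mul]
      simpa using h1
  have hU := val_sym p.isPrime p.ne_bot hl.one_le hα hβ
  have hcast : (((-1) ^ (α * β) * A ^ β * B ^ ((l - 1) * α) : 𝓞 K) : K) =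
      (s ^ β * t ^ ((l - 1) * α) * z ^ E * (ε * (a1 ^ x * b1 ^ (((l - 1 : ℕ) : ℤ) * y)))) ^ l *
        X ^ k := by
    have h1 : (((-1) ^ (α * β) * A ^ β * B ^ ((l - 1) * α) : 𝓞 K) : K) =
        (-1) ^ (α * β) * (A : K) ^ β * (B : K) ^ ((l - 1) * α) := by
      simp
    have h2 : z ^ (e * β) * z ^ (f * ((l - 1) * α)) = (z ^ E) ^ l := by
      rw [← pow_add, hE, mul_comm, pow_mul]
    rw [h1, hAe, hBe, mul_pow _ _ l, mul_pow _ (z ^ E) l, ← h2, mul_assoc _ _ (X ^ k), ← hkey]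
    ring
  obtain ⟨h', hh'⟩ := pow_loc p hl0 hU hcast hvT hTσ
  exact ⟨α, β, h', hα, hβ, hh'⟩

end Loc

/-- every element of `K` is integral up to an `l`-th power -/
theorem exists_int_pow {K : Type} [Field K] [NumberField K] {l : ℕ} (hl : 1 ≤ l) {x : K}
    (hx : x ≠ 0) : ∃ (a : 𝓞 K) (c : K), a ≠ 0 ∧ c ≠ 0 ∧ (a : K) = c ^ l * x := by
  obtain ⟨a, s, hs, rfl⟩ := IsFractionRing.div_surjective (A := 𝓞 K) x
  have hs0 : s ≠ 0 := nonZeroDivisors.ne_zero hs
  have hsK : (algebraMap (𝓞 K) K s) ≠ 0 := by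
    rw [Ne, FaithfulSMul.algebraMap_eq_zero_iff]
    exact hs0
  have ha0 : a ≠ 0 := by
    rintro rfl
    simp at hx
  refine ⟨a * s ^ (l - 1), algebraMap (𝓞 K) K s, mul_ne_zero ha0 (pow_ne_zero _ hs0), hsK, ?_⟩
  change algebraMap (𝓞 K) K (a * s ^ (l - 1)) = _
  obtain ⟨k, rfl⟩ : ∃ k, l = k + 1 := ⟨l - 1, by omega⟩
  rw [map_mul, map_pow, Nat.add_sub_cancel, pow_succ]
  field_simp

/-- **ALG with tame symbols** from the LC form -/
theorem algU_of (K : Type) [Field K] [NumberField K] (l J : ℕ) (hl : l.Prime)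
    (h : ∃ (L : Type) (_ : Field L) (_ : Algebra K L), FiniteDimensional K L ∧
      (∃ ζ : L, IsPrimitiveRoot ζ l) ∧
      ∀ a b : 𝓞 K, a ≠ 0 → b ≠ 0 →
        (∀ p : Ideal (𝓞 K), p.IsPrime → p ≠ ⊥ → a * b ∈ p → Harm l J a b p) →
        IsNm l (algebraMap K L a) (algebraMap K L b)) : AlgStmtU K l J := by
  obtain ⟨L, iL, iA, hfin, ⟨ζ, hζ⟩, hL⟩ := h
  refine ⟨L, iL, iA, hfin, ⟨ζ, hζ⟩, fun a b ha hb hloc => ?_⟩
  obtain ⟨A, s, hA, hs, hAs⟩ := exists_int_pow hl.one_le ha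
  obtain ⟨B, t, hB, ht, hBt⟩ := exists_int_pow hl.one_le hb
  have h1 : IsNm l (algebraMap K L A) (algebraMap K L B) := by
    refine hL A B hA hB fun p hp hp0 _ => ?_
    by_cases hlp : (l : 𝓞 K) ∈ p
    · exact Or.inr (lc_above hp hp0 hl hlp hA hB)
    by_cases hbad : BadL l J (⟨p, hp, hp0⟩ : Pl K)
    · obtain ⟨z, a1, b1, g, h, e, f, h1, h2, h3, h4, h5, h6⟩ := hloc _ hbad
      right
      exact lc_loc (⟨p, hp, hp0⟩ : Pl K) hl hA hB (by rw [hAs, h1]) (by rw [hBt, h2]) h3 h4 h5 h6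
    · left
      refine ⟨?_, hbad⟩
      rw [Nat.coprime_comm, hl.coprime_iff_not_dvd]
      intro hd
      apply hlp
      have hmax : p.IsMaximal := hp.isMaximal hp0
      let _ : Field (𝓞 K ⧸ p) := Ideal.Quotient.field p
      have : Finite (𝓞 K ⧸ p) := Ideal.finiteQuotientOfFreeOfNeBot p hp0
      let _ : Fintype (𝓞 K ⧸ p) := Fintype.ofFinite _
      have h3 : Ideal.absNorm p = Fintype.card (𝓞 K ⧸ p) := by
        rw [Ideal.absNorm_apply, Submodule.cardQuot_apply, Nat.card_eq_fintype_card]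
      obtain ⟨r, hr⟩ := CharP.exists (𝓞 K ⧸ p)
      obtain ⟨n, hrp, hn⟩ := FiniteField.card (𝓞 K ⧸ p) r
      rw [h3, hn] at hd
      have h4 : l = r := (Nat.prime_dvd_prime_iff_eq hl hrp).1 (hl.dvd_of_dvd_pow hd)
      rw [← Ideal.Quotient.eq_zero_iff_mem, map_natCast, h4]
      exact CharP.cast_eq_zero _ r
  have haL : algebraMap K L a ≠ 0 := (map_ne_zero _).2 ha
  have hbL : algebraMap K L b ≠ 0 := (map_ne_zero _).2 hb
  have hsL : algebraMap K L s ≠ 0 := (map_ne_zero _).2 hs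
  have htL : algebraMap K L t ≠ 0 := (map_ne_zero _).2 ht
  rw [hAs, hBt, map_mul, map_mul, map_pow, map_pow] at h1
  have hch : CharZero L := charZero_of_injective_algebraMap (algebraMap K L).injective
  -- remove the power in the second variable
  have h2 : IsNm l (algebraMap K L s ^ l * algebraMap K L a) (algebraMap K L b) := by
    rw [mul_comm (algebraMap K L t ^ l)] at h1
    exact Pool.Agent.Helper98.SB.IsNm.cancel hl.pos (pow_ne_zero _ htL) h1
      (Pool.Agent.Helper98.SB.isNm_pow_self hl.pos _ _)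
  have h3 : IsNm l (algebraMap K L b) (algebraMap K L s ^ l * algebraMap K L a) :=
    Pool.Agent.Helper98.SB.IsNm.symm hζ hl hbL (mul_ne_zero (pow_ne_zero _ hsL) haL) h2
  rw [mul_comm (algebraMap K L s ^ l)] at h3
  have h4 : IsNm l (algebraMap K L b) (algebraMap K L a) :=
    Pool.Agent.Helper98.SB.IsNm.cancel hl.pos (pow_ne_zero _ hsL) h3
      (Pool.Agent.Helper98.SB.isNm_pow_self hl.pos _ _)
  exact Pool.Agent.Helper98.SB.IsNm.symm hζ hl haL hbL h4

end Pool.Agent.Helper17.CL
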